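import Pool.Agent.H.MP_fa5fea_an.A

set_option autoImplicit false

namespace Pool.Agent.Results.MP_fa5fea_an.FivePoints

open Matrix

theorem result :
    ∃ (A : Fin 3 → Matrix (Fin 3) (Fin 3) ℂ) (γ : Fin 3 → Matrix (Fin 2) (Fin 2) ℂ),
      (∀ j, (A j).IsHermitian) ∧ (∀ j, (γ j).IsHermitian) ∧
      (∀ j l, γ j * γ l + γ l * γ j = if j = l then 2 else 0) ∧
      (∀ W : Submodule ℂ (Fin 2 → ℂ), (∀ j, ∀ v ∈ W, γ j *ᵥ v ∈ W) → W = ⊥ ∨ W = ⊤) ∧
      {x : Fin 3 → ℝ | ¬ IsUnit (∑ j : Fin 3, Matrix.kronecker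
          (A j - ((x j : ℂ)) • (1 : Matrix (Fin 3) (Fin 3) ℂ)) (γ j))}.encard = 5 := by
  refine ⟨Pool.Agent.H.MP_fa5fea_an.tri, Pool.Agent.H.MP_fa5fea_an.pauli, ?_,
    Pool.Agent.H.MP_fa5fea_an.pauli_herm, Pool.Agent.H.MP_fa5fea_an.pauli_rel,
    Pool.Agent.H.MP_fa5fea_an.pauli_irr, ?_⟩
  · intro j
    fin_cases j <;> ext a b <;> fin_cases a <;> fin_cases b <;>
      simp [Pool.Agent.H.MP_fa5fea_an.tri]
  · have h := Pool.Agent.H.MP_fa5fea_an.spec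
    unfold Pool.Agent.H.MP_fa5fea_an.loc at h
    simp only [Matrix.isUnit_iff_isUnit_det, isUnit_iff_ne_zero, not_not]
    rw [h, Set.encard_insert_of_notMem, Set.encard_insert_of_notMem, Set.encard_insert_of_notMem,
      Set.encard_insert_of_notMem, Set.encard_singleton]
    · rfl
    all_goals simp
    all_goals norm_num

end Pool.Agent.Results.MP_fa5fea_an.FivePoints
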